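import Pool.Agent.Helper18.GLR.Tools

/-! Reduction of a nontrivial 3-cut side `U` met by two edges of `M`: contract the outside to the
root. (helper18) -/

namespace GLR

open Finset

set_option linter.unusedSectionVars false

variable {V E : Type*} [Fintype V] [DecidableEq V] [DecidableEq E]

theorem root_reduce {G : Gph V E} {r : V} {M : Finset E} (h : InR G r M) {U : Finset V}
    (hU : U ⊆ G.A) (hr : r ∉ U) (h2 : 2 ≤ U.card) (h2' : 2 ≤ (G.A \ U).card)
    (hc : (G.cut G.F U).card = 3) (hm : 2 ≤ (G.meet M U).card) :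
    InR (G.push fun v => if v ∈ U then v else r) r (G.meet M U) := by
  sorry

theorem root_lift {G : Gph V E} {r : V} {M : Finset E} (h : InR G r M) {U : Finset V}
    (hU : U ⊆ G.A) (hr : r ∉ U) (h2 : 2 ≤ U.card) (h2' : 2 ≤ (G.A \ U).card)
    (hc : (G.cut G.F U).card = 3) {X : Finset E} {B : Finset V}
    (hg : Good (G.push fun v => if v ∈ U then v else r) r (G.meet M U) X B) :
    Good G r M X (B ∪ (G.A \ U)) := by
  sorry

end GLR
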