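import Pool.Agent.Helper18.GLR.Tools

/-! Reduction of a nontrivial 3-cut side `U` without an `M`-edge inside: contract `U`. -/

namespace GLR

open Finset

set_option linter.unusedSectionVars false

variable {V E : Type*} [Fintype V] [DecidableEq V] [DecidableEq E]

/-- (helper18) -/
theorem side_reduce {G : Gph V E} {r : V} {M : Finset E} (h : InR G r M) {U : Finset V}
    (hU : U ⊆ G.A) (hr : r ∉ U) (h2 : 2 ≤ U.card) (h2' : 2 ≤ (G.A \ U).card)
    (hc : (G.cut G.F U).card = 3) (hi : G.ins M U = ∅) (hm : (G.meet M U).card ≤ 1)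
    {u0 : V} (hu0 : u0 ∈ U) :
    InR (G.push fun v => if v ∈ U then u0 else v) r M := by
  sorry

/-- (helper12) -/
theorem side_lift {G : Gph V E} {r : V} {M : Finset E} (h : InR G r M) {U : Finset V}
    (hU : U ⊆ G.A) (hr : r ∉ U) (h2 : 2 ≤ U.card) (h2' : 2 ≤ (G.A \ U).card)
    (hc : (G.cut G.F U).card = 3) (hi : G.ins M U = ∅) (hm : (G.meet M U).card ≤ 1)
    {u0 : V} (hu0 : u0 ∈ U) {X : Finset E} {B : Finset V}
    (hg : Good (G.push fun v => if v ∈ U then u0 else v) r M X B) :
    ∃ X' B', Good G r M X' B' := by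
  sorry

end GLR
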