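import Pool.Agent.Helper18.GLR.Tools

/-! Steps (4) and (5): no nontrivial 3-cut and no free edge gives a good circuit. (helper73) -/

namespace GLR

open Finset

set_option linter.unusedSectionVars false

variable {V E : Type*} [Fintype V] [DecidableEq V] [DecidableEq E]

theorem step5 {G : Gph V E} {r : V} {M : Finset E} (h : InR G r M) (h3 : NoCut3 G)
    (hf : ∀ g, ¬ Free G r M g) : ∃ X B, Good G r M X B := by
  sorry

end GLR
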