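import Pool.Agent.Helper18.GLR.Tools

/-! Deletion of a free edge and suppression of its ends. -/

namespace GLR

open Finset

set_option linter.unusedSectionVars false

variable {V E : Type*} [Fintype V] [DecidableEq V] [DecidableEq E]

/-- delete `g = u w`, contract `{u, x}` to `x` and `{w, y}` to `y`, where `x ≠ w` is a neighbour
of `u` and `y ≠ u` a neighbour of `w` -/
def supp (G : Gph V E) (g : E) (u x w y : V) : Gph V E :=
  (G.del g).push fun v => if v = u then x else if v = w then y else v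

namespace SuppAux

/-- local structure at a free edge -/
structure Loc (G : Gph V E) (r : V) (M : Finset E) (g e1 e2 h1 h2 : E) (u x w y : V) : Prop where
  inR : InR G r M
  nc : NoCut3 G
  gF : g ∈ G.F
  sg : G.s g = u
  tg : G.t g = w
  ur : u ≠ r
  wr : w ≠ r
  Mu : ∀ e ∈ M, G.s e ≠ u ∧ G.t e ≠ u
  Mw : ∀ e ∈ M, G.s e ≠ w ∧ G.t e ≠ w
  six : 6 ≤ G.A.card
  cu : G.cut G.F {u} = {g, e1, e2}
  cw : G.cut G.F {w} = {g, h1, h2}
  ge1 : g ≠ e1
  ge2 : g ≠ e2
  e12 : e1 ≠ e2
  gh1 : g ≠ h1
  gh2 : g ≠ h2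
  h12 : h1 ≠ h2
  je : (G.s e2 = u ∧ G.t e2 = x) ∨ (G.s e2 = x ∧ G.t e2 = u)
  jh : (G.s h2 = w ∧ G.t h2 = y) ∨ (G.s h2 = y ∧ G.t h2 = w)
  uA : u ∈ G.A
  wA : w ∈ G.A
  xA : x ∈ G.A
  yA : y ∈ G.A
  uw : u ≠ w
  xu : x ≠ u
  xw : x ≠ w
  yu : y ≠ u
  yw : y ≠ w
  xy : x ≠ y

/-- a set of at most one edge between two vertices -/
theorem ins_pair {G : Gph V E} {r : V} {M : Finset E} (h : InR G r M) {a b : V} (ha : a ∈ G.A)
    (hb : b ∈ G.A) (hab : a ≠ b) : (G.ins G.F {a, b}).card ≤ 1 := by
  have h1 := h.cub.parity (U := {a, b}) (by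
    intro z hz
    simp only [mem_insert, mem_singleton] at hz
    rcases hz with rfl | rfl
    · exact ha
    · exact hb)
  rw [card_pair hab] at h1
  have h2 := h.con {a, b} (by
    intro z hz
    simp only [mem_insert, mem_singleton] at hz
    rcases hz with rfl | rfl
    · exact ha
    · exact hb) ⟨a, by simp⟩ (by
    intro h3
    have := h.big
    rw [← h3, card_pair hab] at this
    omega)
  omega

theorem six_le {G : Gph V E} {r : V} {M : Finset E} (h : InR G r M) {g : E}
    (hg : Free G r M g) : 6 ≤ G.A.card := by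
  obtain ⟨hgF, hs, ht, hMs, hMt⟩ := hg
  have hpar := h.cub.parity (U := G.A) subset_rfl
  have hcut : G.cut G.F G.A = ∅ := by
    rw [eq_empty_iff_forall_notMem]
    intro e he
    rw [Gph.mem_cut] at he
    have h1 := h.cub.sA e he.1
    have h2 := h.cub.tA e he.1
    tauto
  rw [hcut] at hpar
  simp only [card_empty] at hpar
  by_contra hlt
  have h4 : G.A.card = 4 := by
    have := h.big
    omega
  have hst := h.cub.ne g hgF
  have hsA := h.cub.sA g hgF
  have htA := h.cub.tA g hgF
  -- the remaining vertex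
  have h5 : (((G.A.erase (G.s g)).erase (G.t g)).erase r).card = 1 := by
    rw [card_erase_of_mem, card_erase_of_mem, card_erase_of_mem hsA, h4]
    · exact mem_erase.mpr ⟨hst.symm, htA⟩
    · exact mem_erase.mpr ⟨ht.symm, mem_erase.mpr ⟨hs.symm, h.rA⟩⟩
  obtain ⟨z, hz⟩ := card_eq_one.mp h5
  have hzm : z ∈ ((G.A.erase (G.s g)).erase (G.t g)).erase r := by rw [hz]; simp
  simp only [mem_erase] at hzm
  have hall : ∀ v ∈ G.A, v ≠ G.s g → v ≠ G.t g → v ≠ r → v = z := by
    intro v hv h1 h2 h3
    have : v ∈ ((G.A.erase (G.s g)).erase (G.t g)).erase r := by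
      simp only [mem_erase]
      exact ⟨h3, h2, h1, hv⟩
    rw [hz] at this
    simpa using this
  have hM : M ⊆ G.cut M {z} := by
    intro e he
    have heF := h.MF he
    rw [Gph.mem_cut_singleton]
    have hne := h.cub.ne e heF
    have a1 : G.s e ≠ G.s g ∧ G.t e ≠ G.s g := by
      constructor
      · intro hc
        have : e ∈ G.cut M {G.s g} := by
          rw [Gph.mem_cut_singleton]
          exact ⟨he, Or.inl ⟨hc, fun h' => hne (hc.trans h'.symm)⟩⟩
        rw [hMs] at this
        simp at this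
      · intro hc
        have : e ∈ G.cut M {G.s g} := by
          rw [Gph.mem_cut_singleton]
          exact ⟨he, Or.inr ⟨fun h' => hne (h'.trans hc.symm), hc⟩⟩
        rw [hMs] at this
        simp at this
    have a2 : G.s e ≠ G.t g ∧ G.t e ≠ G.t g := by
      constructor
      · intro hc
        have : e ∈ G.cut M {G.t g} := by
          rw [Gph.mem_cut_singleton]
          exact ⟨he, Or.inl ⟨hc, fun h' => hne (hc.trans h'.symm)⟩⟩
        rw [hMt] at this
        simp at this
      · intro hc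
        have : e ∈ G.cut M {G.t g} := by
          rw [Gph.mem_cut_singleton]
          exact ⟨he, Or.inr ⟨fun h' => hne (h'.trans hc.symm), hc⟩⟩
        rw [hMt] at this
        simp at this
    have hsz := hall _ (h.cub.sA e heF) a1.1 a2.1
    have htz := hall _ (h.cub.tA e heF) a1.2 a2.2
    refine ⟨he, ?_⟩
    by_cases hsr : G.s e = r
    · have htr : G.t e ≠ r := fun h' => hne (hsr.trans h'.symm)
      exact Or.inr ⟨fun h' => hne (h'.trans (htz htr).symm), htz htr⟩
    · exact Or.inl ⟨hsz hsr, fun h' => hne ((hsz hsr).trans h'.symm)⟩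
  have h6 := h.mat z hzm.2.2.2 hzm.1
  have h7 := card_le_card hM
  have h8 := h.two
  omega

theorem exists_star {G : Gph V E} {r : V} {M : Finset E} (h : InR G r M) {g : E} {u : V}
    (hg : g ∈ G.cut G.F {u}) (hu : u ∈ G.A) :
    ∃ e1 e2 x, G.cut G.F {u} = {g, e1, e2} ∧ g ≠ e1 ∧ g ≠ e2 ∧ e1 ≠ e2 ∧ e2 ∈ G.F ∧
      ((G.s e2 = u ∧ G.t e2 = x) ∨ (G.s e2 = x ∧ G.t e2 = u)) ∧ x ∈ G.A ∧ x ≠ u := by
  have h3 := h.cub.deg u hu
  have h2 : ((G.cut G.F {u}).erase g).card = 2 := by rw [card_erase_of_mem hg, h3]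
  obtain ⟨e1, e2, h12, he⟩ := card_eq_two.mp h2
  have he1 : e1 ∈ (G.cut G.F {u}).erase g := by rw [he]; simp
  have he2 : e2 ∈ (G.cut G.F {u}).erase g := by rw [he]; simp
  rw [mem_erase] at he1 he2
  have hm := he2.2
  rw [Gph.mem_cut_singleton] at hm
  have heq : G.cut G.F {u} = {g, e1, e2} := by
    rw [← insert_erase hg, he]
  rcases hm with ⟨hF, ⟨ha, hb⟩ | ⟨ha, hb⟩⟩
  · exact ⟨e1, e2, G.t e2, heq, he1.1.symm, he2.1.symm, h12, hF, Or.inl ⟨ha, rfl⟩,
      h.cub.tA _ hF, hb⟩
  · exact ⟨e1, e2, G.s e2, heq, he1.1.symm, he2.1.symm, h12, hF, Or.inr ⟨rfl, hb⟩,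
      h.cub.sA _ hF, ha⟩

theorem exists_loc {G : Gph V E} {r : V} {M : Finset E} (h : InR G r M) (h3 : NoCut3 G)
    {g : E} (hg : Free G r M g) :
    ∃ e1 e2 h1 h2 x y, Loc G r M g e1 e2 h1 h2 (G.s g) x (G.t g) y := by
  have h6 := six_le h hg
  obtain ⟨hgF, hs, ht, hMs, hMt⟩ := hg
  have hst := h.cub.ne g hgF
  have hsA := h.cub.sA g hgF
  have htA := h.cub.tA g hgF
  have hgu : g ∈ G.cut G.F {G.s g} := by
    rw [Gph.mem_cut_singleton]
    exact ⟨hgF, Or.inl ⟨rfl, hst.symm⟩⟩
  have hgw : g ∈ G.cut G.F {G.t g} := by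
    rw [Gph.mem_cut_singleton]
    exact ⟨hgF, Or.inr ⟨hst, rfl⟩⟩
  obtain ⟨e1, e2, x, cu, ge1, ge2, e12, e2F, je, xA, xu⟩ := exists_star h hgu hsA
  obtain ⟨h1, h2, y, cw, gh1, gh2, h12, h2F, jh, yA, yw⟩ := exists_star h hgw htA
  have par : ∀ e ∈ G.F, e ≠ g → e ∈ G.ins G.F {G.s g, G.t g} → False := by
    intro e he hne hin
    have hle := ins_pair h hsA htA hst
    have hsub : ({g, e} : Finset E) ⊆ G.ins G.F {G.s g, G.t g} := by
      intro f hf
      simp only [mem_insert, mem_singleton] at hf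
      rcases hf with rfl | rfl
      · rw [Gph.mem_ins]; simp [hgF]
      · exact hin
    have := card_le_card hsub
    rw [card_pair hne.symm] at this
    omega
  have xw : x ≠ G.t g := by
    rintro rfl
    apply par e2 e2F ge2.symm
    rw [Gph.mem_ins]
    simp only [mem_insert, mem_singleton]
    refine ⟨e2F, ?_⟩
    tauto
  have yu : y ≠ G.s g := by
    rintro rfl
    apply par h2 h2F gh2.symm
    rw [Gph.mem_ins]
    simp only [mem_insert, mem_singleton]
    refine ⟨h2F, ?_⟩
    tauto
  have xy : x ≠ y := by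
    rintro rfl
    have hU : ({G.s g, G.t g, x} : Finset V) ⊆ G.A := by
      intro z hz
      simp only [mem_insert, mem_singleton] at hz
      rcases hz with rfl | rfl | rfl
      · exact hsA
      · exact htA
      · exact xA
    have hc3 : ({G.s g, G.t g, x} : Finset V).card = 3 := by
      rw [card_insert_of_notMem, card_pair xw.symm]
      simp only [mem_insert, mem_singleton, not_or]
      exact ⟨hst, xu.symm⟩
    have hp := h.cub.parity hU
    have hn := h3 _ hU (by omega) (by rw [card_sdiff_of_subset hU]; omega)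
    have hsub : ({g, e2, h2} : Finset E) ⊆ G.ins G.F {G.s g, G.t g, x} := by
      intro f hf
      simp only [mem_insert, mem_singleton] at hf
      rw [Gph.mem_ins]
      simp only [mem_insert, mem_singleton]
      rcases hf with rfl | rfl | rfl
      · exact ⟨hgF, by simp, by simp⟩
      · refine ⟨e2F, ?_⟩
        tauto
      · refine ⟨h2F, ?_⟩
        tauto
    have e2h2 : e2 ≠ h2 := by
      rintro rfl
      rcases je with ⟨a, b⟩ | ⟨a, b⟩ <;> rcases jh with ⟨c, d⟩ | ⟨c, d⟩
      · exact hst (a.symm.trans c)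
      · exact xw (b.symm.trans d)
      · exact xw (a.symm.trans c)
      · exact hst (b.symm.trans d)
    have hc3' : ({g, e2, h2} : Finset E).card = 3 := by
      rw [card_insert_of_notMem, card_pair e2h2]
      simp only [mem_insert, mem_singleton, not_or]
      exact ⟨ge2, gh2⟩
    have := card_le_card hsub
    omega
  have hMm : ∀ v, G.cut M {v} = ∅ → ∀ e ∈ M, G.s e ≠ v ∧ G.t e ≠ v := by
    intro v hv e he
    have hne := h.cub.ne e (h.MF he)
    constructor
    · intro hc
      have : e ∈ G.cut M {v} := by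
        rw [Gph.mem_cut_singleton]
        exact ⟨he, Or.inl ⟨hc, fun h' => hne (hc.trans h'.symm)⟩⟩
      rw [hv] at this
      simp at this
    · intro hc
      have : e ∈ G.cut M {v} := by
        rw [Gph.mem_cut_singleton]
        exact ⟨he, Or.inr ⟨fun h' => hne (h'.trans hc.symm), hc⟩⟩
      rw [hv] at this
      simp at this
  exact ⟨e1, e2, h1, h2, x, y,
    { inR := h, nc := h3, gF := hgF, sg := rfl, tg := rfl, ur := hs, wr := ht,
      Mu := hMm _ hMs, Mw := hMm _ hMt, six := h6, cu := cu, cw := cw, ge1 := ge1, ge2 := ge2,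
      e12 := e12, gh1 := gh1, gh2 := gh2, h12 := h12, je := je, jh := jh, uA := hsA, wA := htA,
      xA := xA, yA := yA, uw := hst, xu := xu, xw := xw, yu := yu, yw := yw, xy := xy }⟩

/-- the contraction map -/
def rho (u x w y : V) : V → V := fun v => if v = u then x else if v = w then y else v

/-- preimages -/
def pre (u x w y : V) (U : Finset V) : Finset V := univ.filter fun v => rho u x w y v ∈ U

section loc

variable {G : Gph V E} {r : V} {M : Finset E} {g e1 e2 h1 h2 : E} {u x w y : V}

theorem rho_u : rho u x w y u = x := by simp [rho]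

theorem rho_w (h : u ≠ w) : rho u x w y w = y := by simp [rho, h.symm]

theorem rho_o {v : V} (h1 : v ≠ u) (h2 : v ≠ w) : rho u x w y v = v := by simp [rho, h1, h2]

theorem mem_pre {U : Finset V} {v : V} : v ∈ pre u x w y U ↔ rho u x w y v ∈ U := by
  simp [pre]

theorem cut_supp (X : Finset E) (U : Finset V) :
    (supp G g u x w y).cut X U = G.cut X (pre u x w y U) := by
  unfold supp
  rw [Gph.cut_push, Gph.cut_del]
  rfl

theorem ins_supp (X : Finset E) (U : Finset V) :
    (supp G g u x w y).ins X U = G.ins X (pre u x w y U) := by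
  unfold supp
  rw [Gph.ins_push, Gph.ins_del]
  rfl

theorem meet_supp (X : Finset E) (U : Finset V) :
    (supp G g u x w y).meet X U = G.meet X (pre u x w y U) := by
  unfold supp
  rw [Gph.meet_push, Gph.meet_del]
  rfl

theorem mem_suppF {e : E} : e ∈ (supp G g u x w y).F ↔
    (e ≠ g ∧ e ∈ G.F) ∧ rho u x w y (G.s e) ≠ rho u x w y (G.t e) := by
  simp [supp, Gph.push, Gph.del, rho]

theorem supp_s (e : E) : (supp G g u x w y).s e = rho u x w y (G.s e) := rfl
theorem supp_t (e : E) : (supp G g u x w y).t e = rho u x w y (G.t e) := rfl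

theorem supp_A : (supp G g u x w y).A = G.A.image (rho u x w y) := rfl

theorem cutF_supp (U : Finset V) :
    (supp G g u x w y).cut (supp G g u x w y).F U = (G.cut G.F (pre u x w y U)).erase g := by
  rw [cut_supp]
  ext e
  rw [Gph.mem_cut, mem_erase, Gph.mem_cut, mem_suppF, mem_pre, mem_pre]
  constructor
  · rintro ⟨⟨⟨h1, h2⟩, h3⟩, h4⟩
    exact ⟨h1, h2, h4⟩
  · rintro ⟨h1, h2, h4⟩
    refine ⟨⟨⟨h1, h2⟩, fun h5 => ?_⟩, h4⟩
    rw [h5] at h4
    exact h4 Iff.rfl

namespace Loc

theorem e1F (L : Loc G r M g e1 e2 h1 h2 u x w y) : e1 ∈ G.F := by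
  have : e1 ∈ G.cut G.F {u} := by rw [L.cu]; simp
  exact Gph.cut_subset _ _ _ this

theorem e2F (L : Loc G r M g e1 e2 h1 h2 u x w y) : e2 ∈ G.F := by
  have : e2 ∈ G.cut G.F {u} := by rw [L.cu]; simp
  exact Gph.cut_subset _ _ _ this

theorem h2F (L : Loc G r M g e1 e2 h1 h2 u x w y) : h2 ∈ G.F := by
  have : h2 ∈ G.cut G.F {w} := by rw [L.cw]; simp
  exact Gph.cut_subset _ _ _ this

theorem uniqe (L : Loc G r M g e1 e2 h1 h2 u x w y) {e : E} (he : e ∈ G.F)
    (hj : (G.s e = u ∧ G.t e = x) ∨ (G.s e = x ∧ G.t e = u)) : e = e2 := by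
  by_contra hne
  have hle := ins_pair L.inR L.uA L.xA L.xu.symm
  have hsub : ({e, e2} : Finset E) ⊆ G.ins G.F {u, x} := by
    intro f hf
    simp only [mem_insert, mem_singleton] at hf
    rw [Gph.mem_ins]
    simp only [mem_insert, mem_singleton]
    rcases hf with rfl | rfl
    · refine ⟨he, ?_⟩
      tauto
    · have := L.je
      refine ⟨L.e2F, ?_⟩
      tauto
  have := card_le_card hsub
  rw [card_pair hne] at this
  omega

theorem uniqh (L : Loc G r M g e1 e2 h1 h2 u x w y) {e : E} (he : e ∈ G.F)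
    (hj : (G.s e = w ∧ G.t e = y) ∨ (G.s e = y ∧ G.t e = w)) : e = h2 := by
  by_contra hne
  have hle := ins_pair L.inR L.wA L.yA L.yw.symm
  have hsub : ({e, h2} : Finset E) ⊆ G.ins G.F {w, y} := by
    intro f hf
    simp only [mem_insert, mem_singleton] at hf
    rw [Gph.mem_ins]
    simp only [mem_insert, mem_singleton]
    rcases hf with rfl | rfl
    · refine ⟨he, ?_⟩
      tauto
    · have := L.jh
      refine ⟨L.h2F, ?_⟩
      tauto
  have := card_le_card hsub
  rw [card_pair hne] at this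
  omega

theorem rho_x (L : Loc G r M g e1 e2 h1 h2 u x w y) : rho u x w y x = x := rho_o L.xu L.xw
theorem rho_y (L : Loc G r M g e1 e2 h1 h2 u x w y) : rho u x w y y = y := rho_o L.yu L.yw

theorem e2h2 (L : Loc G r M g e1 e2 h1 h2 u x w y) : e2 ≠ h2 := by
  rintro rfl
  rcases L.je with ⟨a, b⟩ | ⟨a, b⟩ <;> rcases L.jh with ⟨c, d⟩ | ⟨c, d⟩
  · exact L.uw (a.symm.trans c)
  · exact L.yu (c.symm.trans a)
  · exact L.yu (d.symm.trans b)
  · exact L.uw (b.symm.trans d)

theorem mem_F (L : Loc G r M g e1 e2 h1 h2 u x w y) {e : E} :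
    e ∈ (supp G g u x w y).F ↔ e ∈ G.F ∧ e ≠ g ∧ e ≠ e2 ∧ e ≠ h2 := by
  rw [mem_suppF]
  constructor
  · rintro ⟨⟨h1, h2⟩, h3⟩
    refine ⟨h2, h1, ?_, ?_⟩
    · rintro rfl
      apply h3
      rcases L.je with ⟨a, b⟩ | ⟨a, b⟩
      · rw [a, b, rho_u, L.rho_x]
      · rw [a, b, rho_u, L.rho_x]
    · rintro rfl
      apply h3
      rcases L.jh with ⟨a, b⟩ | ⟨a, b⟩
      · rw [a, b, rho_w L.uw, L.rho_y]
      · rw [a, b, rho_w L.uw, L.rho_y]
  · rintro ⟨h1, h2, h3, h4⟩
    refine ⟨⟨h2, h1⟩, fun h5 => ?_⟩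
    have hne := L.inR.cub.ne e h1
    by_cases su : G.s e = u
    · rw [su, rho_u] at h5
      by_cases tw : G.t e = w
      · rw [tw, rho_w L.uw] at h5
        exact L.xy h5
      · have tu : G.t e ≠ u := fun h => hne (su.trans h.symm)
        rw [rho_o tu tw] at h5
        exact h3 (L.uniqe h1 (Or.inl ⟨su, h5.symm⟩))
    · by_cases sw : G.s e = w
      · rw [sw, rho_w L.uw] at h5
        by_cases tu : G.t e = u
        · rw [tu, rho_u] at h5
          exact L.xy h5.symm
        · have tw : G.t e ≠ w := fun h => hne (sw.trans h.symm)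
          rw [rho_o tu tw] at h5
          exact h4 (L.uniqh h1 (Or.inl ⟨sw, h5.symm⟩))
      · rw [rho_o su sw] at h5
        by_cases tu : G.t e = u
        · rw [tu, rho_u] at h5
          exact h3 (L.uniqe h1 (Or.inr ⟨h5, tu⟩))
        · by_cases tw : G.t e = w
          · rw [tw, rho_w L.uw] at h5
            exact h4 (L.uniqh h1 (Or.inr ⟨h5, tw⟩))
          · rw [rho_o tu tw] at h5
            exact hne h5

theorem mem_A (L : Loc G r M g e1 e2 h1 h2 u x w y) {v : V} :
    v ∈ (supp G g u x w y).A ↔ v ∈ G.A ∧ v ≠ u ∧ v ≠ w := by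
  rw [supp_A, mem_image]
  constructor
  · rintro ⟨z, hz, rfl⟩
    by_cases h1 : z = u
    · subst h1
      rw [rho_u]
      exact ⟨L.xA, L.xu, L.xw⟩
    · by_cases h2 : z = w
      · subst h2
        rw [rho_w L.uw]
        exact ⟨L.yA, L.yu, L.yw⟩
      · rw [rho_o h1 h2]
        exact ⟨hz, h1, h2⟩
  · rintro ⟨h1, h2, h3⟩
    exact ⟨v, h1, rho_o h2 h3⟩

theorem A_eq (L : Loc G r M g e1 e2 h1 h2 u x w y) :
    (supp G g u x w y).A = (G.A.erase u).erase w := by
  ext v
  rw [L.mem_A, mem_erase, mem_erase]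
  tauto

theorem card_A (L : Loc G r M g e1 e2 h1 h2 u x w y) :
    (supp G g u x w y).A.card + 2 = G.A.card := by
  rw [L.A_eq, card_erase_of_mem (mem_erase.mpr ⟨L.uw.symm, L.wA⟩), card_erase_of_mem L.uA]
  have := L.six
  omega

theorem pre_subset (L : Loc G r M g e1 e2 h1 h2 u x w y) {U : Finset V}
    (hU : U ⊆ (supp G g u x w y).A) : pre u x w y U ⊆ G.A := by
  intro v hv
  rw [mem_pre] at hv
  by_cases h1 : v = u
  · rw [h1]; exact L.uA
  · by_cases h2 : v = w
    · rw [h2]; exact L.wA
    · rw [rho_o h1 h2] at hv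
      exact (L.mem_A.mp (hU hv)).1

theorem sub_pre (L : Loc G r M g e1 e2 h1 h2 u x w y) {U : Finset V}
    (hU : U ⊆ (supp G g u x w y).A) : U ⊆ pre u x w y U := by
  intro v hv
  have := L.mem_A.mp (hU hv)
  rw [mem_pre, rho_o this.2.1 this.2.2]
  exact hv

theorem g_cut (L : Loc G r M g e1 e2 h1 h2 u x w y) {U : Finset V} :
    g ∈ G.cut G.F (pre u x w y U) ↔ ¬ (x ∈ U ↔ y ∈ U) := by
  rw [Gph.mem_cut, mem_pre, mem_pre, L.sg, L.tg, rho_u, rho_w L.uw]
  have := L.gF
  tauto

theorem cross (L : Loc G r M g e1 e2 h1 h2 u x w y) {U : Finset V}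
    (hU : U ⊆ (supp G g u x w y).A) (hg : g ∈ G.cut G.F (pre u x w y U)) :
    U.card + 1 ≤ (pre u x w y U).card ∧ 2 ≤ (G.A \ pre u x w y U).card := by
  rw [L.g_cut] at hg
  have huU : u ∉ U := fun h => (L.mem_A.mp (hU h)).2.1 rfl
  have hwU : w ∉ U := fun h => (L.mem_A.mp (hU h)).2.2 rfl
  by_cases hx : x ∈ U
  · have hy : y ∉ U := by tauto
    constructor
    · have : insert u U ⊆ pre u x w y U := by
        apply insert_subset _ (L.sub_pre hU)
        rw [mem_pre, rho_u]; exact hx
      have := card_le_card this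
      rwa [card_insert_of_notMem huU] at this
    · have : ({w, y} : Finset V) ⊆ G.A \ pre u x w y U := by
        intro z hz
        simp only [mem_insert, mem_singleton] at hz
        rw [mem_sdiff, mem_pre]
        rcases hz with rfl | rfl
        · rw [rho_w L.uw]; exact ⟨L.wA, hy⟩
        · rw [L.rho_y]; exact ⟨L.yA, hy⟩
      have := card_le_card this
      rwa [card_pair L.yw.symm] at this
  · have hy : y ∈ U := by tauto
    constructor
    · have : insert w U ⊆ pre u x w y U := by
        apply insert_subset _ (L.sub_pre hU)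
        rw [mem_pre, rho_w L.uw]; exact hy
      have := card_le_card this
      rwa [card_insert_of_notMem hwU] at this
    · have : ({u, x} : Finset V) ⊆ G.A \ pre u x w y U := by
        intro z hz
        simp only [mem_insert, mem_singleton] at hz
        rw [mem_sdiff, mem_pre]
        rcases hz with rfl | rfl
        · rw [rho_u]; exact ⟨L.uA, hx⟩
        · rw [L.rho_x]; exact ⟨L.xA, hx⟩
      have := card_le_card this
      rwa [card_pair L.xu.symm] at this

/-- edges of `M` do not see the contraction -/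
theorem cutM (L : Loc G r M g e1 e2 h1 h2 u x w y) (U : Finset V) :
    (supp G g u x w y).cut M U = G.cut M U := by
  rw [cut_supp]
  ext e
  rw [Gph.mem_cut, Gph.mem_cut, mem_pre, mem_pre]
  constructor
  · rintro ⟨he, hc⟩
    rw [rho_o (L.Mu e he).1 (L.Mw e he).1, rho_o (L.Mu e he).2 (L.Mw e he).2] at hc
    exact ⟨he, hc⟩
  · rintro ⟨he, hc⟩
    rw [rho_o (L.Mu e he).1 (L.Mw e he).1, rho_o (L.Mu e he).2 (L.Mw e he).2]
    exact ⟨he, hc⟩

theorem meetM (L : Loc G r M g e1 e2 h1 h2 u x w y) (U : Finset V) :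
    G.meet M (pre u x w y U) = (supp G g u x w y).meet M U := (meet_supp _ _).symm

theorem insM (L : Loc G r M g e1 e2 h1 h2 u x w y) (U : Finset V) :
    G.ins M (pre u x w y U) = (supp G g u x w y).ins M U := (ins_supp _ _).symm

theorem M_F (L : Loc G r M g e1 e2 h1 h2 u x w y) : M ⊆ (supp G g u x w y).F := by
  intro e he
  rw [L.mem_F]
  have h1 := L.Mu e he
  have h2 := L.Mw e he
  refine ⟨L.inR.MF he, ?_, ?_, ?_⟩
  · rintro rfl
    exact h1.1 L.sg
  · rintro rfl
    rcases L.je with ⟨a, b⟩ | ⟨a, b⟩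
    · exact h1.1 a
    · exact h1.2 b
  · rintro rfl
    rcases L.jh with ⟨a, b⟩ | ⟨a, b⟩
    · exact h2.1 a
    · exact h2.2 b

theorem pre_single_o (L : Loc G r M g e1 e2 h1 h2 u x w y) {v : V} (hu : v ≠ u) (hw : v ≠ w)
    (hx : v ≠ x) (hy : v ≠ y) : pre u x w y {v} = {v} := by
  ext z
  rw [mem_pre, mem_singleton, mem_singleton]
  by_cases h1 : z = u
  · subst h1
    rw [rho_u]
    exact ⟨fun h => absurd h.symm hx, fun h => absurd h.symm hu⟩
  · by_cases h2 : z = w
    · subst h2
      rw [rho_w L.uw]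
      exact ⟨fun h => absurd h.symm hy, fun h => absurd h.symm hw⟩
    · rw [rho_o h1 h2]

theorem pre_single_x (L : Loc G r M g e1 e2 h1 h2 u x w y) : pre u x w y {x} = {x, u} := by
  ext z
  rw [mem_pre, mem_singleton, mem_insert, mem_singleton]
  by_cases h1 : z = u
  · subst h1
    rw [rho_u]
    simp
  · by_cases h2 : z = w
    · subst h2
      rw [rho_w L.uw]
      have := L.xy
      have := L.xw
      have := L.uw
      constructor
      · intro h; exact absurd h.symm L.xy
      · rintro (h | h)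
        · exact absurd h.symm L.xw
        · exact absurd h.symm L.uw
    · rw [rho_o h1 h2]
      simp [h1]

theorem pre_single_y (L : Loc G r M g e1 e2 h1 h2 u x w y) : pre u x w y {y} = {y, w} := by
  ext z
  rw [mem_pre, mem_singleton, mem_insert, mem_singleton]
  by_cases h1 : z = u
  · subst h1
    rw [rho_u]
    constructor
    · intro h; exact absurd h L.xy
    · rintro (h | h)
      · exact absurd h.symm L.yu
      · exact absurd h L.uw
  · by_cases h2 : z = w
    · subst h2
      rw [rho_w L.uw]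
      simp
    · rw [rho_o h1 h2]
      simp [h2]

/-- the cut of a pair joined by an edge -/
theorem cut_pair (L : Loc G r M g e1 e2 h1 h2 u x w y) {a b : V} {f : E} (ha : a ∈ G.A)
    (hb : b ∈ G.A) (hab : a ≠ b) (hf : f ∈ G.ins G.F {a, b}) :
    (G.cut G.F {a, b}).card = 4 := by
  have hU : ({a, b} : Finset V) ⊆ G.A := by
    intro z hz
    simp only [mem_insert, mem_singleton] at hz
    rcases hz with rfl | rfl
    · exact ha
    · exact hb
  have h1 := L.inR.cub.parity hU
  have h2 := ins_pair L.inR ha hb hab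
  have h3 : 0 < (G.ins G.F {a, b}).card := card_pos.mpr ⟨f, hf⟩
  rw [card_pair hab] at h1
  omega

theorem deg (L : Loc G r M g e1 e2 h1 h2 u x w y) {v : V} (hv : v ∈ (supp G g u x w y).A) :
    ((supp G g u x w y).cut (supp G g u x w y).F {v}).card = 3 := by
  rw [cutF_supp]
  obtain ⟨hA, hu, hw⟩ := L.mem_A.mp hv
  by_cases hx : v = x
  · subst hx
    rw [card_erase_of_mem]
    · rw [L.pre_single_x, L.cut_pair L.xA L.uA L.xu (f := e2)]
      rw [Gph.mem_ins]
      simp only [mem_insert, mem_singleton]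
      have := L.je
      refine ⟨L.e2F, ?_⟩
      tauto
    · rw [L.g_cut, mem_singleton, mem_singleton]
      have := L.xy
      tauto
  · by_cases hy : v = y
    · subst hy
      rw [card_erase_of_mem]
      · rw [L.pre_single_y, L.cut_pair L.yA L.wA L.yw (f := h2)]
        rw [Gph.mem_ins]
        simp only [mem_insert, mem_singleton]
        have := L.jh
        refine ⟨L.h2F, ?_⟩
        tauto
      · rw [L.g_cut, mem_singleton, mem_singleton]
        have := L.xy
        tauto
    · rw [erase_eq_of_notMem]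
      · rw [L.pre_single_o hu hw hx hy]
        exact L.inR.cub.deg v hA
      · rw [L.g_cut, mem_singleton, mem_singleton]
        tauto

theorem red (L : Loc G r M g e1 e2 h1 h2 u x w y)
    (ht : ∀ W, Thin G r M W → g ∉ G.cut G.F W) : InR (supp G g u x w y) r M where
  cub := {
    sA := by
      intro e he
      rw [supp_s, supp_A]
      exact mem_image_of_mem _ (L.inR.cub.sA e (L.mem_F.mp he).1)
    tA := by
      intro e he
      rw [supp_t, supp_A]
      exact mem_image_of_mem _ (L.inR.cub.tA e (L.mem_F.mp he).1)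
    ne := fun e he => (mem_suppF.mp he).2
    deg := fun v hv => L.deg hv }
  big := by
    have := L.card_A
    have := L.six
    omega
  con := by
    intro U hU hne hA
    rw [cutF_supp]
    by_cases hg : g ∈ G.cut G.F (pre u x w y U)
    · rw [card_erase_of_mem hg]
      have h1 := L.cross hU hg
      have h0 : 0 < U.card := card_pos.mpr hne
      have := L.nc _ (L.pre_subset hU) (by omega) h1.2
      omega
    · rw [erase_eq_of_notMem hg]
      apply L.inR.con _ (L.pre_subset hU)
      · exact hne.mono (L.sub_pre hU)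
      · intro h
        apply hA
        apply subset_antisymm hU
        intro v hv
        have h1 := L.mem_A.mp hv
        have h2 : v ∈ pre u x w y U := by rw [h]; exact h1.1
        rwa [mem_pre, rho_o h1.2.1 h1.2.2] at h2
  rA := L.mem_A.mpr ⟨L.inR.rA, L.ur.symm, L.wr.symm⟩
  MF := L.M_F
  mat := by
    intro v hv hr
    rw [L.cutM]
    exact L.inR.mat v (L.mem_A.mp hv).1 hr
  two := L.inR.two
  lon := by
    intro U hU hr h2 hc hm
    by_contra hi
    rw [← L.meetM] at hm
    rw [← L.insM] at hi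
    rw [cutF_supp] at hc
    have hr' : r ∉ pre u x w y U := by
      rw [mem_pre, rho_o L.ur.symm L.wr.symm]
      exact hr
    have hle := card_le_card (L.sub_pre hU)
    by_cases hg : g ∈ G.cut G.F (pre u x w y U)
    · rw [card_erase_of_mem hg] at hc
      have h1 := L.cross hU hg
      have hp := L.inR.cub.parity (L.pre_subset hU)
      have hpos : 0 < (G.ins M (pre u x w y U)).card :=
        card_pos.mpr (nonempty_iff_ne_empty.mpr hi)
      have hle2 : (G.ins M (pre u x w y U)).card ≤ (G.meet M (pre u x w y U)).card := by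
        apply card_le_card
        intro e he
        rw [Gph.mem_ins] at he
        rw [Gph.mem_meet]
        exact ⟨he.1, Or.inl he.2.1⟩
      refine ht _ ⟨L.pre_subset hU, hr', ?_, ?_, hm, ?_⟩ hg
      · omega
      · omega
      · omega
    · rw [erase_eq_of_notMem hg] at hc
      exact hi (L.inR.lon _ (L.pre_subset hU) hr' (by omega) hc hm)

/-- the lifted circuit -/
noncomputable def lift (G : Gph V E) (e2 h2 : E) (u w : V) (X : Finset E) : Finset E :=
  X ∪ ((if (G.cut X {u}).Nonempty then {e2} else ∅) ∪ (if (G.cut X {w}).Nonempty then {h2} else ∅))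

section lifting

variable {X : Finset E}

theorem mem_lift {e : E} : e ∈ lift G e2 h2 u w X ↔ e ∈ X ∨ (e = e2 ∧ (G.cut X {u}).Nonempty) ∨
    (e = h2 ∧ (G.cut X {w}).Nonempty) := by
  unfold lift
  rw [mem_union, mem_union]
  by_cases h1 : (G.cut X {u}).Nonempty <;> by_cases h2 : (G.cut X {w}).Nonempty <;> simp [h1, h2]

theorem cuXsub (L : Loc G r M g e1 e2 h1 h2 u x w y) (hX : X ⊆ (supp G g u x w y).F) :
    G.cut X {u} ⊆ {e1} := by
  intro e he
  have hF := L.mem_F.mp (hX (Gph.cut_subset _ _ _ he))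
  have h1 : e ∈ G.cut G.F {u} := by
    rw [Gph.mem_cut] at he ⊢
    exact ⟨hF.1, he.2⟩
  rw [L.cu] at h1
  simp only [mem_insert, mem_singleton] at h1 ⊢
  tauto

theorem cwXsub (L : Loc G r M g e1 e2 h1 h2 u x w y) (hX : X ⊆ (supp G g u x w y).F) :
    G.cut X {w} ⊆ {h1} := by
  intro e he
  have hF := L.mem_F.mp (hX (Gph.cut_subset _ _ _ he))
  have h1 : e ∈ G.cut G.F {w} := by
    rw [Gph.mem_cut] at he ⊢
    exact ⟨hF.1, he.2⟩
  rw [L.cw] at h1
  simp only [mem_insert, mem_singleton] at h1 ⊢
  tauto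

/-- cut of the lift at `u` -/
theorem cut_lift_u (L : Loc G r M g e1 e2 h1 h2 u x w y) (hX : X ⊆ (supp G g u x w y).F) :
    Even (G.cut (lift G e2 h2 u w X) {u}).card := by
  by_cases hn : (G.cut X {u}).Nonempty
  · have hs : G.cut X {u} = {e1} := by
      rcases subset_singleton_iff.mp (L.cuXsub hX) with h | h
      · rw [h] at hn; simp at hn
      · exact h
    have he1 : e1 ∈ G.cut X {u} := by rw [hs]; simp
    have : G.cut (lift G e2 h2 u w X) {u} = {e1, e2} := by
      ext e
      simp only [mem_insert, mem_singleton]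
      constructor
      · intro he
        have h3 := Gph.cut_subset _ _ _ he
        rw [mem_lift] at h3
        rcases h3 with h3 | h3 | h3
        · left
          have : e ∈ G.cut X {u} := by
            rw [Gph.mem_cut] at he ⊢
            exact ⟨h3, he.2⟩
          rw [hs] at this
          simpa using this
        · exact Or.inr h3.1
        · exfalso
          rw [Gph.mem_cut_singleton] at he
          rcases L.jh with ⟨a, b⟩ | ⟨a, b⟩
          · rw [h3.1, a, b] at he
            rcases he.2 with h | h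
            · exact L.uw h.1.symm
            · exact L.yu h.2
          · rw [h3.1, a, b] at he
            rcases he.2 with h | h
            · exact L.yu h.1
            · exact L.uw h.2.symm
      · rintro (rfl | rfl)
        · rw [Gph.mem_cut] at he1 ⊢
          exact ⟨mem_lift.mpr (Or.inl he1.1), he1.2⟩
        · rw [Gph.mem_cut_singleton]
          refine ⟨mem_lift.mpr (Or.inr (Or.inl ⟨rfl, hn⟩)), ?_⟩
          rcases L.je with ⟨a, b⟩ | ⟨a, b⟩
          · left; rw [a, b]; exact ⟨rfl, L.xu⟩
          · right; rw [a, b]; exact ⟨L.xu, rfl⟩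
    rw [this, card_pair L.e12]
    exact even_two
  · have : G.cut (lift G e2 h2 u w X) {u} = ∅ := by
      rw [eq_empty_iff_forall_notMem]
      intro e he
      have h3 := Gph.cut_subset _ _ _ he
      rw [mem_lift] at h3
      rcases h3 with h3 | h3 | h3
      · apply hn
        rw [Gph.mem_cut] at he
        exact ⟨e, G.mem_cut.mpr ⟨h3, he.2⟩⟩
      · exact hn h3.2
      · rw [Gph.mem_cut_singleton] at he
        rcases L.jh with ⟨a, b⟩ | ⟨a, b⟩
        · rw [h3.1, a, b] at he
          rcases he.2 with h | h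
          · exact L.uw h.1.symm
          · exact L.yu h.2
        · rw [h3.1, a, b] at he
          rcases he.2 with h | h
          · exact L.yu h.1
          · exact L.uw h.2.symm
    rw [this]
    simp

theorem cut_lift_w (L : Loc G r M g e1 e2 h1 h2 u x w y) (hX : X ⊆ (supp G g u x w y).F) :
    Even (G.cut (lift G e2 h2 u w X) {w}).card := by
  by_cases hn : (G.cut X {w}).Nonempty
  · have hs : G.cut X {w} = {h1} := by
      rcases subset_singleton_iff.mp (L.cwXsub hX) with h | h
      · rw [h] at hn; simp at hn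
      · exact h
    have he1 : h1 ∈ G.cut X {w} := by rw [hs]; simp
    have : G.cut (lift G e2 h2 u w X) {w} = {h1, h2} := by
      ext e
      simp only [mem_insert, mem_singleton]
      constructor
      · intro he
        have h3 := Gph.cut_subset _ _ _ he
        rw [mem_lift] at h3
        rcases h3 with h3 | h3 | h3
        · left
          have : e ∈ G.cut X {w} := by
            rw [Gph.mem_cut] at he ⊢
            exact ⟨h3, he.2⟩
          rw [hs] at this
          simpa using this
        · exfalso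
          rw [Gph.mem_cut_singleton] at he
          rcases L.je with ⟨a, b⟩ | ⟨a, b⟩
          · rw [h3.1, a, b] at he
            rcases he.2 with h | h
            · exact L.uw h.1
            · exact L.xw h.2
          · rw [h3.1, a, b] at he
            rcases he.2 with h | h
            · exact L.xw h.1
            · exact L.uw h.2
        · exact Or.inr h3.1
      · rintro (rfl | rfl)
        · rw [Gph.mem_cut] at he1 ⊢
          exact ⟨mem_lift.mpr (Or.inl he1.1), he1.2⟩
        · rw [Gph.mem_cut_singleton]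
          refine ⟨mem_lift.mpr (Or.inr (Or.inr ⟨rfl, hn⟩)), ?_⟩
          rcases L.jh with ⟨a, b⟩ | ⟨a, b⟩
          · left; rw [a, b]; exact ⟨rfl, L.yw⟩
          · right; rw [a, b]; exact ⟨L.yw, rfl⟩
    rw [this, card_pair L.h12]
    exact even_two
  · have : G.cut (lift G e2 h2 u w X) {w} = ∅ := by
      rw [eq_empty_iff_forall_notMem]
      intro e he
      have h3 := Gph.cut_subset _ _ _ he
      rw [mem_lift] at h3
      rcases h3 with h3 | h3 | h3
      · apply hn
        rw [Gph.mem_cut] at he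
        exact ⟨e, G.mem_cut.mpr ⟨h3, he.2⟩⟩
      · rw [Gph.mem_cut_singleton] at he
        rcases L.je with ⟨a, b⟩ | ⟨a, b⟩
        · rw [h3.1, a, b] at he
          rcases he.2 with h | h
          · exact L.uw h.1
          · exact L.xw h.2
        · rw [h3.1, a, b] at he
          rcases he.2 with h | h
          · exact L.xw h.1
          · exact L.uw h.2
      · exact hn h3.2
    rw [this]
    simp

/-- saturated cuts do not see the added edges -/
theorem cut_lift_pre (L : Loc G r M g e1 e2 h1 h2 u x w y) (U : Finset V) :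
    G.cut (lift G e2 h2 u w X) (pre u x w y U) = G.cut X (pre u x w y U) := by
  ext e
  rw [Gph.mem_cut, Gph.mem_cut, mem_lift]
  constructor
  · rintro ⟨h3 | h3 | h3, h4⟩
    · exact ⟨h3, h4⟩
    · exfalso
      rw [h3.1, mem_pre, mem_pre] at h4
      rcases L.je with ⟨a, b⟩ | ⟨a, b⟩
      · rw [a, b, rho_u, L.rho_x] at h4
        exact h4 Iff.rfl
      · rw [a, b, rho_u, L.rho_x] at h4
        exact h4 Iff.rfl
    · exfalso
      rw [h3.1, mem_pre, mem_pre] at h4
      rcases L.jh with ⟨a, b⟩ | ⟨a, b⟩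
      · rw [a, b, rho_w L.uw, L.rho_y] at h4
        exact h4 Iff.rfl
      · rw [a, b, rho_w L.uw, L.rho_y] at h4
        exact h4 Iff.rfl
  · rintro ⟨h3, h4⟩
    exact ⟨Or.inl h3, h4⟩

end lifting

end Loc

/-- parity of the cut of a difference -/
theorem even_cut_sdiff {G : Gph V E} {X : Finset E} {U W : Finset V} (hWU : W ⊆ U)
    (hU : Even (G.cut X U).card) (hW : Even (G.cut X W).card) : Even (G.cut X (U \ W)).card := by
  have h1 : G.cut X (U \ W) = symmDiff (G.cut X U) (G.cut X W) := by
    ext e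
    rw [mem_symmDiff, Gph.mem_cut, Gph.mem_cut, Gph.mem_cut, mem_sdiff, mem_sdiff]
    have h1 := @hWU (G.s e)
    have h2 := @hWU (G.t e)
    tauto
  rw [h1]
  set A := G.cut X U
  set B := G.cut X W
  have h3 : symmDiff A B = (A \ B) ∪ (B \ A) := rfl
  rw [h3, card_union_of_disjoint (disjoint_sdiff_sdiff)]
  have := card_sdiff_add_card_inter A B
  have h4 := card_sdiff_add_card_inter B A
  rw [inter_comm] at h4
  rcases hU with ⟨a, ha⟩
  rcases hW with ⟨b, hb⟩
  exact ⟨a + b - (A ∩ B).card, by omega⟩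

namespace Loc

variable {X : Finset E}

theorem e2_notMem (L : Loc G r M g e1 e2 h1 h2 u x w y) (hX : X ⊆ (supp G g u x w y).F) :
    e2 ∉ X := fun h => (L.mem_F.mp (hX h)).2.2.1 rfl

theorem h2_notMem (L : Loc G r M g e1 e2 h1 h2 u x w y) (hX : X ⊆ (supp G g u x w y).F) :
    h2 ∉ X := fun h => (L.mem_F.mp (hX h)).2.2.2 rfl

theorem ev_lift (L : Loc G r M g e1 e2 h1 h2 u x w y) (hX : X ⊆ (supp G g u x w y).F)
    (hev : (supp G g u x w y).Ev X) : G.Ev (lift G e2 h2 u w X) := by
  intro v
  by_cases hu : v = u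
  · rw [hu]; exact L.cut_lift_u hX
  by_cases hw : v = w
  · rw [hw]; exact L.cut_lift_w hX
  by_cases hx : v = x
  · subst hx
    have h1 : ({v} : Finset V) = pre u v w y {v} \ {u} := by
      rw [L.pre_single_x]
      ext z
      simp only [mem_sdiff, mem_insert, mem_singleton]
      constructor
      · rintro rfl; exact ⟨Or.inl rfl, hu⟩
      · rintro ⟨h | h, h'⟩
        · exact h
        · exact absurd h h'
    rw [h1]
    apply even_cut_sdiff
    · rw [L.pre_single_x]
      intro z hz
      simp only [mem_insert, mem_singleton] at hz ⊢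
      exact Or.inr hz
    · rw [L.cut_lift_pre, ← cut_supp]
      exact hev v
    · exact L.cut_lift_u hX
  by_cases hy : v = y
  · subst hy
    have h1 : ({v} : Finset V) = pre u x w v {v} \ {w} := by
      rw [L.pre_single_y]
      ext z
      simp only [mem_sdiff, mem_insert, mem_singleton]
      constructor
      · rintro rfl; exact ⟨Or.inl rfl, hw⟩
      · rintro ⟨h | h, h'⟩
        · exact h
        · exact absurd h h'
    rw [h1]
    apply even_cut_sdiff
    · rw [L.pre_single_y]
      intro z hz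
      simp only [mem_insert, mem_singleton] at hz ⊢
      exact Or.inr hz
    · rw [L.cut_lift_pre, ← cut_supp]
      exact hev v
    · exact L.cut_lift_w hX
  · rw [← L.pre_single_o hu hw hx hy, L.cut_lift_pre, ← cut_supp]
    exact hev v

/-- removing the added edges from a subset of the lift -/
theorem cut_filter (L : Loc G r M g e1 e2 h1 h2 u x w y) {Y : Finset E}
    (hY : Y ⊆ lift G e2 h2 u w X) (U : Finset V) :
    G.cut (Y.filter fun e => e ∈ X) (pre u x w y U) = G.cut Y (pre u x w y U) := by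
  ext e
  rw [Gph.mem_cut, Gph.mem_cut, mem_filter]
  constructor
  · rintro ⟨⟨h1, h2⟩, h3⟩
    exact ⟨h1, h3⟩
  · rintro ⟨h1, h4⟩
    refine ⟨⟨h1, ?_⟩, h4⟩
    rcases mem_lift.mp (hY h1) with h3 | h3 | h3
    · exact h3
    · exfalso
      rw [h3.1, mem_pre, mem_pre] at h4
      rcases L.je with ⟨a, b⟩ | ⟨a, b⟩
      · rw [a, b, rho_u, L.rho_x] at h4
        exact h4 Iff.rfl
      · rw [a, b, rho_u, L.rho_x] at h4
        exact h4 Iff.rfl
    · exfalso
      rw [h3.1, mem_pre, mem_pre] at h4
      rcases L.jh with ⟨a, b⟩ | ⟨a, b⟩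
      · rw [a, b, rho_w L.uw, L.rho_y] at h4
        exact h4 Iff.rfl
      · rw [a, b, rho_w L.uw, L.rho_y] at h4
        exact h4 Iff.rfl

theorem e2_u (L : Loc G r M g e1 e2 h1 h2 u x w y) {Y : Finset E} (h : e2 ∈ Y) :
    e2 ∈ G.cut Y {u} := by
  rw [Gph.mem_cut_singleton]
  refine ⟨h, ?_⟩
  rcases L.je with ⟨a, b⟩ | ⟨a, b⟩
  · left; rw [a, b]; exact ⟨rfl, L.xu⟩
  · right; rw [a, b]; exact ⟨L.xu, rfl⟩

theorem e2_x (L : Loc G r M g e1 e2 h1 h2 u x w y) {Y : Finset E} (h : e2 ∈ Y) :
    e2 ∈ G.cut Y {x} := by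
  rw [Gph.mem_cut_singleton]
  refine ⟨h, ?_⟩
  rcases L.je with ⟨a, b⟩ | ⟨a, b⟩
  · right; rw [a, b]; exact ⟨L.xu.symm, rfl⟩
  · left; rw [a, b]; exact ⟨rfl, L.xu.symm⟩

theorem h2_w (L : Loc G r M g e1 e2 h1 h2 u x w y) {Y : Finset E} (h : h2 ∈ Y) :
    h2 ∈ G.cut Y {w} := by
  rw [Gph.mem_cut_singleton]
  refine ⟨h, ?_⟩
  rcases L.jh with ⟨a, b⟩ | ⟨a, b⟩
  · left; rw [a, b]; exact ⟨rfl, L.yw⟩
  · right; rw [a, b]; exact ⟨L.yw, rfl⟩

theorem h2_y (L : Loc G r M g e1 e2 h1 h2 u x w y) {Y : Finset E} (h : h2 ∈ Y) :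
    h2 ∈ G.cut Y {y} := by
  rw [Gph.mem_cut_singleton]
  refine ⟨h, ?_⟩
  rcases L.jh with ⟨a, b⟩ | ⟨a, b⟩
  · right; rw [a, b]; exact ⟨L.yw.symm, rfl⟩
  · left; rw [a, b]; exact ⟨rfl, L.yw.symm⟩

theorem h2_not_u (L : Loc G r M g e1 e2 h1 h2 u x w y) {Y : Finset E} : h2 ∉ G.cut Y {u} := by
  intro he
  rw [Gph.mem_cut_singleton] at he
  rcases L.jh with ⟨a, b⟩ | ⟨a, b⟩
  · rw [a, b] at he
    rcases he.2 with h | h
    · exact L.uw h.1.symm
    · exact L.yu h.2
  · rw [a, b] at he
    rcases he.2 with h | h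
    · exact L.yu h.1
    · exact L.uw h.2.symm

theorem e2_not_w (L : Loc G r M g e1 e2 h1 h2 u x w y) {Y : Finset E} : e2 ∉ G.cut Y {w} := by
  intro he
  rw [Gph.mem_cut_singleton] at he
  rcases L.je with ⟨a, b⟩ | ⟨a, b⟩
  · rw [a, b] at he
    rcases he.2 with h | h
    · exact L.uw h.1
    · exact L.xw h.2
  · rw [a, b] at he
    rcases he.2 with h | h
    · exact L.xw h.1
    · exact L.uw h.2

theorem e2_iff (L : Loc G r M g e1 e2 h1 h2 u x w y) (hX : X ⊆ (supp G g u x w y).F)
    {Y : Finset E} (hY : Y ⊆ lift G e2 h2 u w X) (hev : G.Ev Y) :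
    e2 ∈ Y ↔ (G.cut (Y.filter fun e => e ∈ X) {u}).Nonempty := by
  have hsub : G.cut (Y.filter fun e => e ∈ X) {u} ⊆ {e1} := by
    refine subset_trans ?_ (L.cuXsub hX)
    apply Gph.cut_mono
    intro e he
    exact (mem_filter.mp he).2
  have hmem : ∀ e, e ∈ G.cut Y {u} → e = e2 ∨ e ∈ G.cut (Y.filter fun e => e ∈ X) {u} := by
    intro e he
    have h1 := Gph.cut_subset _ _ _ he
    rcases mem_lift.mp (hY h1) with h3 | h3 | h3
    · right
      rw [Gph.mem_cut] at he ⊢
      exact ⟨mem_filter.mpr ⟨h1, h3⟩, he.2⟩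
    · exact Or.inl h3.1
    · rw [h3.1] at he
      exact absurd he L.h2_not_u
  have hmem2 : ∀ e, e ∈ G.cut (Y.filter fun e => e ∈ X) {u} → e ∈ G.cut Y {u} := by
    intro e he
    exact Gph.cut_mono _ (filter_subset _ _) _ he
  constructor
  · intro h
    by_contra hn
    rw [not_nonempty_iff_eq_empty] at hn
    have : G.cut Y {u} = {e2} := by
      ext e
      rw [mem_singleton]
      constructor
      · intro he
        rcases hmem e he with h' | h'
        · exact h'
        · rw [hn] at h'; simp at h'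
      · rintro rfl
        exact L.e2_u h
    have h5 := hev u
    rw [this, card_singleton] at h5
    exact absurd h5 (by decide)
  · intro h
    by_contra hn
    have h6 : G.cut (Y.filter fun e => e ∈ X) {u} = {e1} := by
      rcases subset_singleton_iff.mp hsub with h' | h'
      · rw [h'] at h; simp at h
      · exact h'
    have : G.cut Y {u} = {e1} := by
      ext e
      rw [← h6]
      constructor
      · intro he
        rcases hmem e he with h' | h'
        · rw [h'] at he
          exact absurd (Gph.cut_subset _ _ _ he) hn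
        · exact h'
      · exact hmem2 e
    have h5 := hev u
    rw [this, card_singleton] at h5
    exact absurd h5 (by decide)

theorem h2_iff (L : Loc G r M g e1 e2 h1 h2 u x w y) (hX : X ⊆ (supp G g u x w y).F)
    {Y : Finset E} (hY : Y ⊆ lift G e2 h2 u w X) (hev : G.Ev Y) :
    h2 ∈ Y ↔ (G.cut (Y.filter fun e => e ∈ X) {w}).Nonempty := by
  have hsub : G.cut (Y.filter fun e => e ∈ X) {w} ⊆ {h1} := by
    refine subset_trans ?_ (L.cwXsub hX)
    apply Gph.cut_mono
    intro e he
    exact (mem_filter.mp he).2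
  have hmem : ∀ e, e ∈ G.cut Y {w} → e = h2 ∨ e ∈ G.cut (Y.filter fun e => e ∈ X) {w} := by
    intro e he
    have h1 := Gph.cut_subset _ _ _ he
    rcases mem_lift.mp (hY h1) with h3 | h3 | h3
    · right
      rw [Gph.mem_cut] at he ⊢
      exact ⟨mem_filter.mpr ⟨h1, h3⟩, he.2⟩
    · rw [h3.1] at he
      exact absurd he L.e2_not_w
    · exact Or.inl h3.1
  have hmem2 : ∀ e, e ∈ G.cut (Y.filter fun e => e ∈ X) {w} → e ∈ G.cut Y {w} := by
    intro e he
    exact Gph.cut_mono _ (filter_subset _ _) _ he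
  constructor
  · intro h
    by_contra hn
    rw [not_nonempty_iff_eq_empty] at hn
    have : G.cut Y {w} = {h2} := by
      ext e
      rw [mem_singleton]
      constructor
      · intro he
        rcases hmem e he with h' | h'
        · exact h'
        · rw [hn] at h'; simp at h'
      · rintro rfl
        exact L.h2_w h
    have h5 := hev w
    rw [this, card_singleton] at h5
    exact absurd h5 (by decide)
  · intro h
    by_contra hn
    have h6 : G.cut (Y.filter fun e => e ∈ X) {w} = {h1} := by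
      rcases subset_singleton_iff.mp hsub with h' | h'
      · rw [h'] at h; simp at h
      · exact h'
    have : G.cut Y {w} = {h1} := by
      ext e
      rw [← h6]
      constructor
      · intro he
        rcases hmem e he with h' | h'
        · rw [h'] at he
          exact absurd (Gph.cut_subset _ _ _ he) hn
        · exact h'
      · exact hmem2 e
    have h5 := hev w
    rw [this, card_singleton] at h5
    exact absurd h5 (by decide)

theorem circ_lift (L : Loc G r M g e1 e2 h1 h2 u x w y)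
    (hX : (supp G g u x w y).Circ X) : G.Circ (lift G e2 h2 u w X) where
  sub := by
    intro e he
    rcases mem_lift.mp he with h3 | h3 | h3
    · exact (L.mem_F.mp (hX.sub h3)).1
    · rw [h3.1]; exact L.e2F
    · rw [h3.1]; exact L.h2F
  ne := hX.ne.mono (fun e he => mem_lift.mpr (Or.inl he))
  ev := L.ev_lift hX.sub hX.ev
  min := by
    intro Y hY hev hne
    have hYe := L.e2_iff hX.sub hY hev
    have hYh := L.h2_iff hX.sub hY hev
    have h0 : (Y.filter fun e => e ∈ X) = X := by
      apply hX.min _ (fun e he => (mem_filter.mp he).2)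
      · intro v
        rw [cut_supp, L.cut_filter hY]
        exact hev.cut _
      · by_contra hn
        rw [not_nonempty_iff_eq_empty] at hn
        rw [hn] at hYe hYh
        have h1 : e2 ∉ Y := by
          rw [hYe]
          rintro ⟨e, he⟩
          have := Gph.cut_subset _ _ _ he
          simp at this
        have h2 : h2 ∉ Y := by
          rw [hYh]
          rintro ⟨e, he⟩
          have := Gph.cut_subset _ _ _ he
          simp at this
        obtain ⟨e, he⟩ := hne
        rcases mem_lift.mp (hY he) with h3 | h3 | h3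
        · have : e ∈ Y.filter fun e => e ∈ X := mem_filter.mpr ⟨he, h3⟩
          rw [hn] at this
          simp at this
        · rw [h3.1] at he; exact h1 he
        · rw [h3.1] at he; exact h2 he
    rw [h0] at hYe hYh
    apply subset_antisymm hY
    intro e he
    rcases mem_lift.mp he with h3 | h3 | h3
    · rw [← h0] at h3
      exact (mem_filter.mp h3).1
    · rw [h3.1]; exact hYe.mpr h3.2
    · rw [h3.1]; exact hYh.mpr h3.2

theorem cut_lift_nonempty (L : Loc G r M g e1 e2 h1 h2 u x w y) {v : V} (hu : v ≠ u)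
    (hw : v ≠ w) (hn : ((supp G g u x w y).cut X {v}).Nonempty) :
    (G.cut (lift G e2 h2 u w X) {v}).Nonempty := by
  rw [cut_supp] at hn
  obtain ⟨f, hf⟩ := hn
  by_cases hx : v = x
  · subst hx
    rw [L.pre_single_x] at hf
    by_cases hfu : f ∈ G.cut X {u}
    · exact ⟨e2, L.e2_x (mem_lift.mpr (Or.inr (Or.inl ⟨rfl, ⟨f, hfu⟩⟩)))⟩
    · refine ⟨f, ?_⟩
      rw [Gph.mem_cut, mem_lift]
      rw [Gph.mem_cut] at hf hfu
      refine ⟨Or.inl hf.1, ?_⟩
      have h1 := hf.1
      have h2 := hf.2
      simp only [mem_insert, mem_singleton] at h2 hfu ⊢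
      have := L.xu
      by_cases a1 : G.s f = v <;> by_cases a2 : G.t f = v <;> by_cases a3 : G.s f = u <;>
        by_cases a4 : G.t f = u <;> simp_all
  by_cases hy : v = y
  · subst hy
    rw [L.pre_single_y] at hf
    by_cases hfu : f ∈ G.cut X {w}
    · exact ⟨h2, L.h2_y (mem_lift.mpr (Or.inr (Or.inr ⟨rfl, ⟨f, hfu⟩⟩)))⟩
    · refine ⟨f, ?_⟩
      rw [Gph.mem_cut, mem_lift]
      rw [Gph.mem_cut] at hf hfu
      refine ⟨Or.inl hf.1, ?_⟩
      have h1 := hf.1
      have h2 := hf.2
      simp only [mem_insert, mem_singleton] at h2 hfu ⊢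
      have := L.yw
      by_cases a1 : G.s f = v <;> by_cases a2 : G.t f = v <;> by_cases a3 : G.s f = w <;>
        by_cases a4 : G.t f = w <;> simp_all
  · rw [L.pre_single_o hu hw hx hy] at hf
    refine ⟨f, ?_⟩
    rw [Gph.mem_cut, mem_lift]
    rw [Gph.mem_cut] at hf
    exact ⟨Or.inl hf.1, hf.2⟩

theorem conn_lift (L : Loc G r M g e1 e2 h1 h2 u x w y) {B : Finset V}
    (hc : (supp G g u x w y).Conn (supp G g u x w y).F B) : G.Conn G.F (pre u x w y B) := by
  intro Y hY hne hYB
  by_cases hxB : x ∈ B ∧ ¬ (u ∈ Y ↔ x ∈ Y)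
  · refine ⟨e2, ?_⟩
    rw [Gph.mem_cut, Gph.mem_ins]
    rcases L.je with ⟨a, b⟩ | ⟨a, b⟩
    · rw [a, b, mem_pre, mem_pre, rho_u, L.rho_x]
      exact ⟨⟨L.e2F, hxB.1, hxB.1⟩, hxB.2⟩
    · rw [a, b, mem_pre, mem_pre, rho_u, L.rho_x]
      refine ⟨⟨L.e2F, hxB.1, hxB.1⟩, ?_⟩
      have := hxB.2
      tauto
  by_cases hyB : y ∈ B ∧ ¬ (w ∈ Y ↔ y ∈ Y)
  · refine ⟨h2, ?_⟩
    rw [Gph.mem_cut, Gph.mem_ins]
    rcases L.jh with ⟨a, b⟩ | ⟨a, b⟩
    · rw [a, b, mem_pre, mem_pre, rho_w L.uw, L.rho_y]
      exact ⟨⟨L.h2F, hyB.1, hyB.1⟩, hyB.2⟩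
    · rw [a, b, mem_pre, mem_pre, rho_w L.uw, L.rho_y]
      refine ⟨⟨L.h2F, hyB.1, hyB.1⟩, ?_⟩
      have := hyB.2
      tauto
  · have hYpre : ∀ v, v ∈ Y ↔ rho u x w y v ∈ Y.filter fun z => z ∈ B := by
      intro v
      rw [mem_filter]
      by_cases h1 : v = u
      · subst h1
        rw [rho_u]
        constructor
        · intro h
          have h' := hY h
          rw [mem_pre, rho_u] at h'
          tauto
        · rintro ⟨h, h'⟩
          tauto
      · by_cases h2 : v = w
        · subst h2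
          rw [rho_w L.uw]
          constructor
          · intro h
            have h' := hY h
            rw [mem_pre, rho_w L.uw] at h'
            tauto
          · rintro ⟨h, h'⟩
            tauto
        · rw [rho_o h1 h2]
          constructor
          · intro h
            have h' := hY h
            rw [mem_pre, rho_o h1 h2] at h'
            exact ⟨h, h'⟩
          · rintro ⟨h, h'⟩
            exact h
    have h1 : (Y.filter fun z => z ∈ B) ≠ B := by
      intro h
      apply hYB
      ext v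
      rw [hYpre, mem_pre, h]
    obtain ⟨v, hv⟩ := hne
    obtain ⟨e, he⟩ := hc _ (fun z hz => (mem_filter.mp hz).2) ⟨_, (hYpre v).mp hv⟩ h1
    rw [ins_supp, cut_supp, Gph.mem_cut, Gph.mem_ins, mem_pre, mem_pre, mem_pre, mem_pre] at he
    refine ⟨e, ?_⟩
    rw [Gph.mem_cut, Gph.mem_ins, hYpre, hYpre, mem_pre, mem_pre]
    exact ⟨⟨(L.mem_F.mp he.1.1).1, he.1.2⟩, he.2⟩

theorem good_lift (L : Loc G r M g e1 e2 h1 h2 u x w y) {B : Finset V}
    (hg : Good (supp G g u x w y) r M X B) :
    Good G r M (lift G e2 h2 u w X) (pre u x w y B) where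
  circ := L.circ_lift hg.circ
  BA := L.pre_subset hg.BA
  rB := by
    rw [mem_pre, rho_o L.ur.symm L.wr.symm]
    exact hg.rB
  con := L.conn_lift hg.con
  dis := by
    have hd := hg.dis
    rw [meet_supp] at hd
    have key : ∀ f ∈ X, G.s f ∉ pre u x w y B ∧ G.t f ∉ pre u x w y B := by
      intro f hf
      constructor
      · intro h
        have : f ∈ G.meet X (pre u x w y B) := by
          rw [Gph.mem_meet]; exact ⟨hf, Or.inl h⟩
        rw [hd] at this
        simp at this
      · intro h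
        have : f ∈ G.meet X (pre u x w y B) := by
          rw [Gph.mem_meet]; exact ⟨hf, Or.inr h⟩
        rw [hd] at this
        simp at this
    rw [eq_empty_iff_forall_notMem]
    intro e he
    rw [Gph.mem_meet, mem_lift] at he
    obtain ⟨h3 | h3 | h3, h4⟩ := he
    · have := key e h3
      tauto
    · obtain ⟨rfl, f, hf⟩ := h3
      have hxB : x ∈ B := by
        rw [mem_pre, mem_pre] at h4
        rcases L.je with ⟨a, b⟩ | ⟨a, b⟩
        · rw [a, b, rho_u, L.rho_x] at h4
          tauto
        · rw [a, b, rho_u, L.rho_x] at h4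
          tauto
      have huB : u ∈ pre u x w y B := by rw [mem_pre, rho_u]; exact hxB
      rw [Gph.mem_cut_singleton] at hf
      have := key f hf.1
      rcases hf.2 with h | h
      · rw [h.1] at this; exact this.1 huB
      · rw [h.2] at this; exact this.2 huB
    · obtain ⟨rfl, f, hf⟩ := h3
      have hxB : y ∈ B := by
        rw [mem_pre, mem_pre] at h4
        rcases L.jh with ⟨a, b⟩ | ⟨a, b⟩
        · rw [a, b, rho_w L.uw, L.rho_y] at h4
          tauto
        · rw [a, b, rho_w L.uw, L.rho_y] at h4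
          tauto
      have huB : w ∈ pre u x w y B := by rw [mem_pre, rho_w L.uw]; exact hxB
      rw [Gph.mem_cut_singleton] at hf
      have := key f hf.1
      rcases hf.2 with h | h
      · rw [h.1] at this; exact this.1 huB
      · rw [h.2] at this; exact this.2 huB
  one := by
    refine le_trans (card_le_card ?_) hg.one
    intro e he
    rw [mem_inter, mem_lift] at he
    rw [mem_inter]
    obtain ⟨h3 | h3 | h3, h4⟩ := he
    · exact ⟨h3, h4⟩
    · rw [h3.1] at h4
      exact absurd h4 (L.e2_notMem L.M_F)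
    · rw [h3.1] at h4
      exact absurd h4 (L.h2_notMem L.M_F)
  two := by
    refine le_trans hg.two (card_le_card ?_)
    intro e he
    rw [mem_filter] at he ⊢
    refine ⟨he.1, ?_⟩
    have h1 := L.Mu e he.1
    have h2 := L.Mw e he.1
    rcases he.2 with h | h
    · left
      rw [supp_s, rho_o h1.1 h2.1] at h
      exact L.cut_lift_nonempty h1.1 h2.1 h
    · right
      rw [supp_t, rho_o h1.2 h2.2] at h
      exact L.cut_lift_nonempty h1.2 h2.2 h
  all := by
    intro e he hn
    rw [mem_pre, mem_pre]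
    exact hg.all e he (fun h => hn (mem_lift.mpr (Or.inl h)))

end Loc

end loc

end SuppAux

open SuppAux

/-- (helper74) If no thin set is crossed by the free edge `g`, then `G - g` is in the
class and good circuits of `G - g` are good circuits of `G`. Proof: choose `e2 = u x` in `F`, `e2 ≠ g`,
and `h2 = w y` in `F`, `h2 ≠ g`; `NoCut3` gives `x ≠ w`, `y ≠ u`, `x ≠ y` (no triangle).
`G' := supp G g u x w y`. For `U' ⊆ G'.A` put `U := preimage`; `cut G' F' U' = (cut F U).erase g`. -/
theorem supp_reduce {G : Gph V E} {r : V} {M : Finset E} (h : InR G r M) (h3 : NoCut3 G)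
    {g : E} (hg : Free G r M g) (ht : ∀ W, Thin G r M W → g ∉ G.cut G.F W) :
    ∃ G' : Gph V E, G'.A.card < G.A.card ∧ InR G' r M ∧
      ∀ X B, Good G' r M X B → ∃ X' B', Good G r M X' B' := by
  obtain ⟨e1, e2, h1, h2, x, y, L⟩ := exists_loc h h3 hg
  refine ⟨supp G g (G.s g) x (G.t g) y, ?_, L.red ht, fun X B hX => ⟨_, _, L.good_lift hX⟩⟩
  have := L.card_A
  omega

end GLR
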