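import Pool.Agent.Helper18.GLR.Tools

/-! There are no thin sets / a minimal thin set contains a free edge crossed by no thin set. (helper18) -/

namespace GLR

open Finset

set_option linter.unusedSectionVars false

variable {V E : Type*} [Fintype V] [DecidableEq V] [DecidableEq E]

theorem thin_free {G : Gph V E} {r : V} {M : Finset E} (h : InR G r M) (h3 : NoCut3 G)
    {T : Finset V} (hT : Thin G r M T) (hmin : ∀ W, Thin G r M W → W ⊆ T → W = T) :
    ∃ g, Free G r M g ∧ ∀ W, Thin G r M W → g ∉ G.cut G.F W := by
  sorry

end GLR
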